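import Pool.Agent.Y734.Stms

set_option autoImplicit false

namespace Pool.Agent.Y734.REF

open MvPolynomial

/-- exponent vector -/
noncomputable def ex (a b c d : ℕ) : Fin 4 →₀ ℕ := Finsupp.equivFunOnFinite.symm ![a, b, c, d]

@[simp] lemma ex_zero (a b c d : ℕ) : ex a b c d 0 = a := rfl
@[simp] lemma ex_one (a b c d : ℕ) : ex a b c d 1 = b := rfl
@[simp] lemma ex_two (a b c d : ℕ) : ex a b c d 2 = c := rfl
@[simp] lemma ex_three (a b c d : ℕ) : ex a b c d 3 = d := rfl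

lemma ex_inj (a b c d a' b' c' d' : ℕ) :
    ex a b c d = ex a' b' c' d' ↔ a = a' ∧ b = b' ∧ c = c' ∧ d = d' := by
  constructor
  · intro h
    exact ⟨DFunLike.congr_fun h 0, DFunLike.congr_fun h 1, DFunLike.congr_fun h 2,
      DFunLike.congr_fun h 3⟩
  · rintro ⟨rfl, rfl, rfl, rfl⟩; rfl

lemma mon (a b c d : ℕ) (k : ℚ) : monomial (ex a b c d) k =
    C k * X 0 ^ a * X 1 ^ b * X 2 ^ c * X 3 ^ d := by
  rw [monomial_eq, Finsupp.prod_fintype _ _ (by intro i; simp)]
  simp [Fin.prod_univ_four, mul_assoc]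

/-- the linear form `a₀ X₀ + a₁ X₁` -/
noncomputable def L (a : Fin 2 → ℚ) : MvPolynomial (Fin 4) ℚ := C (a 0) * X 0 + C (a 1) * X 1

/-- the determinant -/
noncomputable def D (a b c d : Fin 2 → ℚ) : MvPolynomial (Fin 4) ℚ :=
  L d * (L a * L c - L b ^ 2) + 2 * L b * X 2 * X 3 - L a * X 2 ^ 2 - L c * X 3 ^ 2

lemma D_eq (a b c d : Fin 2 → ℚ) : D a b c d =
    monomial (ex 3 0 0 0) (d 0 * (a 0 * c 0 - b 0 ^ 2)) +
    monomial (ex 2 1 0 0) (d 1 * (a 0 * c 0 - b 0 ^ 2) + d 0 * (a 0 * c 1 + a 1 * c 0 - 2 * b 0 * b 1)) +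
    monomial (ex 1 2 0 0) (d 0 * (a 1 * c 1 - b 1 ^ 2) + d 1 * (a 0 * c 1 + a 1 * c 0 - 2 * b 0 * b 1)) +
    monomial (ex 0 3 0 0) (d 1 * (a 1 * c 1 - b 1 ^ 2)) +
    monomial (ex 1 0 1 1) (2 * b 0) + monomial (ex 0 1 1 1) (2 * b 1) +
    monomial (ex 1 0 2 0) (- a 0) + monomial (ex 0 1 2 0) (- a 1) +
    monomial (ex 1 0 0 2) (- c 0) + monomial (ex 0 1 0 2) (- c 1) := by
  simp only [mon, D, L, map_add, map_mul, map_sub, map_neg, map_pow, map_ofNat]
  ring

lemma coeff_D (a b c d : Fin 2 → ℚ) (m : Fin 4 →₀ ℕ) : coeff m (D a b c d) =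
    (if ex 3 0 0 0 = m then (d 0 * (a 0 * c 0 - b 0 ^ 2)) else 0) +
    (if ex 2 1 0 0 = m then (d 1 * (a 0 * c 0 - b 0 ^ 2) + d 0 * (a 0 * c 1 + a 1 * c 0 - 2 * b 0 * b 1)) else 0) +
    (if ex 1 2 0 0 = m then (d 0 * (a 1 * c 1 - b 1 ^ 2) + d 1 * (a 0 * c 1 + a 1 * c 0 - 2 * b 0 * b 1)) else 0) +
    (if ex 0 3 0 0 = m then (d 1 * (a 1 * c 1 - b 1 ^ 2)) else 0) +
    (if ex 1 0 1 1 = m then (2 * b 0) else 0) + (if ex 0 1 1 1 = m then (2 * b 1) else 0) +
    (if ex 1 0 2 0 = m then (- a 0) else 0) + (if ex 0 1 2 0 = m then (- a 1) else 0) +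
    (if ex 1 0 0 2 = m then (- c 0) else 0) + (if ex 0 1 0 2 = m then (- c 1) else 0) := by
  rw [D_eq]
  simp only [coeff_add, coeff_monomial]

lemma homL (a : Fin 2 → ℚ) : (L a).IsHomogeneous 1 :=
  (isHomogeneous_C_mul_X _ _).add (isHomogeneous_C_mul_X _ _)

lemma homD (a b c d : Fin 2 → ℚ) : (D a b c d).IsHomogeneous 3 := by
  have h2 : (X 2 : MvPolynomial (Fin 4) ℚ).IsHomogeneous 1 := isHomogeneous_X _ _
  have h3 : (X 3 : MvPolynomial (Fin 4) ℚ).IsHomogeneous 1 := isHomogeneous_X _ _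
  have e2 : (2 : MvPolynomial (Fin 4) ℚ).IsHomogeneous 0 := by
    have := isHomogeneous_C (Fin 4) (2 : ℚ)
    rwa [map_ofNat] at this
  have t1 : (L d * (L a * L c - L b ^ 2)).IsHomogeneous 3 :=
    (homL d).mul (((homL a).mul (homL c)).sub ((homL b).pow 2))
  have t2 : (2 * L b * X 2 * X 3).IsHomogeneous 3 := ((e2.mul (homL b)).mul h2).mul h3
  have t3 : (L a * X 2 ^ 2).IsHomogeneous 3 := (homL a).mul (h2.pow 2)
  have t4 : (L c * X 3 ^ 2).IsHomogeneous 3 := (homL c).mul (h3.pow 2)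
  exact ((t1.add t2).sub t3).sub t4

lemma coeff_D_zero (a b c d : Fin 2 → ℚ) (m : Fin 4 →₀ ℕ) (h0 : m 0 = 0) (h1 : m 1 = 0) :
    coeff m (D a b c d) = 0 := by
  rw [coeff_D]
  have key : ∀ p q r s : ℕ, (p ≠ 0 ∨ q ≠ 0) → ex p q r s ≠ m := by
    intro p q r s h he
    rw [← he] at h0 h1
    simp only [ex_zero, ex_one] at h0 h1
    omega
  rw [if_neg (key _ _ _ _ (by norm_num)), if_neg (key _ _ _ _ (by norm_num)),
    if_neg (key _ _ _ _ (by norm_num)), if_neg (key _ _ _ _ (by norm_num)),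
    if_neg (key _ _ _ _ (by norm_num)), if_neg (key _ _ _ _ (by norm_num)),
    if_neg (key _ _ _ _ (by norm_num)), if_neg (key _ _ _ _ (by norm_num)),
    if_neg (key _ _ _ _ (by norm_num)), if_neg (key _ _ _ _ (by norm_num))]
  norm_num

/-- the sign change of the last two variables -/
noncomputable def phi : MvPolynomial (Fin 4) ℚ →ₐ[ℚ] MvPolynomial (Fin 4) ℚ :=
  aeval ![X 0, X 1, -X 2, -X 3]

lemma phi0 : phi (X 0) = X 0 := by simp [phi]
lemma phi1 : phi (X 1) = X 1 := by simp [phi]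
lemma phi2 : phi (X 2) = - X 2 := by simp [phi]
lemma phi3 : phi (X 3) = - X 3 := by simp [phi]

lemma phi_phi (P : MvPolynomial (Fin 4) ℚ) : phi (phi P) = P := by
  have : (phi.comp phi) = AlgHom.id ℚ _ := by
    apply MvPolynomial.algHom_ext
    intro i
    fin_cases i
    · simp [phi0]
    · simp [phi1]
    · simp [phi2]
    · simp [phi3]
  exact DFunLike.congr_fun this P

lemma phi_L (a : Fin 2 → ℚ) : phi (L a) = L a := by
  unfold L
  rw [map_add, map_mul, map_mul, phi0, phi1]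
  simp [phi]

lemma phi_D (a b c d : Fin 2 → ℚ) : phi (D a b c d) = D a b c d := by
  unfold D
  simp only [map_sub, map_add, map_mul, map_pow, phi_L, phi2, phi3, map_ofNat]
  ring

lemma phi_hom (P : MvPolynomial (Fin 4) ℚ) (n : ℕ) (h : P.IsHomogeneous n) :
    (phi P).IsHomogeneous n := by
  have := h.aeval (R := ℚ) (τ := Fin 4) (S := ℚ) ![X 0, X 1, -X 2, -X 3] (n := 1) (by
    intro i
    fin_cases i
    · exact isHomogeneous_X _ _
    · exact isHomogeneous_X _ _
    · exact (isHomogeneous_X _ _).neg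
    · exact (isHomogeneous_X _ _).neg)
  rwa [one_mul] at this

attribute [local instance] MvPolynomial.gradedAlgebra in
lemma comp (F E : MvPolynomial (Fin 4) ℚ) (e n : ℕ) (hF : F.IsHomogeneous e)
    (hD : (F * E).IsHomogeneous n) (he : e ≤ n) :
    ∃ E', E'.IsHomogeneous (n - e) ∧ F * E = F * E' := by
  refine ⟨homogeneousComponent (n - e) E, homogeneousComponent_isHomogeneous _ _, ?_⟩
  have h := DirectSum.coe_decompose_mul_of_left_mem_of_le (homogeneousSubmodule (Fin 4) ℚ)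
    (a := F) (b := E) (i := e) (n := n) hF he
  have h1 : ∀ (P : MvPolynomial (Fin 4) ℚ) (k : ℕ),
    (DirectSum.decompose (homogeneousSubmodule (Fin 4) ℚ) P k : MvPolynomial (Fin 4) ℚ) =
      homogeneousComponent k P := by
    intro P k
    exact decomposition.decompose'_apply P k
  rw [h1, h1, homogeneousComponent_of_mem hD, if_pos rfl] at h
  exact h

lemma lin_of_hom (E : MvPolynomial (Fin 4) ℚ) (h : E.IsHomogeneous 1) :
    ∃ l : Fin 4 → ℚ, E = ∑ i, C (l i) * X i := by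
  have h' : E ∈ homogeneousSubmodule (Fin 4) ℚ 1 := h
  rw [homogeneousSubmodule_one_eq_span_X, Submodule.mem_span_range_iff_exists_fun] at h'
  obtain ⟨l, hl⟩ := h'
  exact ⟨l, by rw [← hl]; simp [smul_eq_C_mul]⟩

lemma coeff_0120 (a b c d : Fin 2 → ℚ) : coeff (ex 0 1 2 0) (D a b c d) = - a 1 := by
  rw [coeff_D]; simp [ex_inj]

lemma coeff_0102 (a b c d : Fin 2 → ℚ) : coeff (ex 0 1 0 2) (D a b c d) = - c 1 := by
  rw [coeff_D]; simp [ex_inj]

lemma coeff_0111 (a b c d : Fin 2 → ℚ) : coeff (ex 0 1 1 1) (D a b c d) = 2 * b 1 := by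
  rw [coeff_D]; simp [ex_inj]

lemma coeff_1020 (a b c d : Fin 2 → ℚ) : coeff (ex 1 0 2 0) (D a b c d) = - a 0 := by
  rw [coeff_D]; simp [ex_inj]

lemma D_ne (a b c d : Fin 2 → ℚ) (ha : a ≠ 0) : D a b c d ≠ 0 := by
  intro h
  apply ha
  have h0 := coeff_1020 a b c d
  have h1 := coeff_0120 a b c d
  rw [h, coeff_zero] at h0 h1
  ext i
  fin_cases i
  · simpa using h0
  · simpa using h1

lemma eval_L (a : Fin 2 → ℚ) (p : Fin 4 → ℚ) : eval p (L a) = a 0 * p 0 + a 1 * p 1 := by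
  simp [L]

lemma eval_D (a b c d : Fin 2 → ℚ) (p : Fin 4 → ℚ) : eval p (D a b c d) =
    (d 0 * p 0 + d 1 * p 1) * ((a 0 * p 0 + a 1 * p 1) * (c 0 * p 0 + c 1 * p 1) -
      (b 0 * p 0 + b 1 * p 1) ^ 2) + 2 * (b 0 * p 0 + b 1 * p 1) * p 2 * p 3 -
      (a 0 * p 0 + a 1 * p 1) * p 2 ^ 2 - (c 0 * p 0 + c 1 * p 1) * p 3 ^ 2 := by
  simp [D, eval_L]

/-- no factorisation `D = F E` with `F` an irreducible quadric -/
lemma no_two (a b c d : Fin 2 → ℚ) (ha : a ≠ 0) (hd : d ≠ 0)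
    (α β γ α' β' γ' : ℚ) (h1 : α * a 0 + β * b 0 + γ * c 0 = 1)
    (h2 : α * a 1 + β * b 1 + γ * c 1 = 0) (h3 : α' * a 0 + β' * b 0 + γ' * c 0 = 0)
    (h4 : α' * a 1 + β' * b 1 + γ' * c 1 = 1)
    (F : MvPolynomial (Fin 4) ℚ) (hF : F.IsHomogeneous 2) (hi : Irreducible F)
    (hdvd : F ∣ D a b c d) : False := by
  obtain ⟨E₀, hE₀⟩ := hdvd
  have hD := homD a b c d
  rw [hE₀] at hD
  obtain ⟨E, hE, hEE⟩ := comp F E₀ 2 3 hF hD (by norm_num)
  rw [hEE] at hE₀
  have hE1 : E.IsHomogeneous 1 := by simpa using hE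
  obtain ⟨l, hl⟩ := lin_of_hom E hE1
  have hDne := D_ne a b c d ha
  have hEne : E ≠ 0 := by
    rintro rfl
    rw [mul_zero] at hE₀
    exact hDne hE₀
  have hFne : F ≠ 0 := hi.ne_zero
  have hpE : phi E ≠ 0 := by
    intro h
    apply hEne
    have := phi_phi E
    rw [h, map_zero] at this
    exact this.symm
  have hphi : F ∣ phi F * phi E := by
    rw [← map_mul, ← hE₀, phi_D, hE₀]
    exact dvd_mul_right _ _
  have hevE : ∀ p : Fin 4 → ℚ, eval p E = ∑ i, l i * p i := by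
    intro p; rw [hl]; simp
  have hevpE : ∀ p : Fin 4 → ℚ, eval p (phi E) = l 0 * p 0 + l 1 * p 1 - l 2 * p 2 - l 3 * p 3 := by
    intro p; rw [hl]
    simp only [Fin.sum_univ_four, map_add, map_mul, phi0, phi1, phi2, phi3]
    simp [phi]
    ring
  have hab : (l 2 = 0 ∧ l 3 = 0) ∨ (l 0 = 0 ∧ l 1 = 0) := by
    rcases (hi.prime).dvd_or_dvd hphi with h | h
    · obtain ⟨G, hG⟩ := h
      have hpF : (phi F).IsHomogeneous 2 := phi_hom F 2 hF
      rw [hG] at hpF
      obtain ⟨G', hG', hGG⟩ := comp F G 2 2 hF hpF le_rfl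
      rw [hGG] at hG
      obtain ⟨κ, hκ⟩ : ∃ κ, G' = C κ := by
        have := (totalDegree_zero_iff_isHomogeneous (p := G')).2 (by simpa using hG')
        exact ⟨_, (totalDegree_eq_zero_iff_eq_C).1 this⟩
      have hEκ : E = C κ * phi E := by
        have h5 : F * E = F * (C κ * phi E) := by
          rw [← mul_assoc, ← hκ, ← hG, ← map_mul, ← hE₀, phi_D, hE₀]
        exact mul_left_cancel₀ hFne h5
      have key : ∀ p : Fin 4 → ℚ, ∑ i, l i * p i =
          κ * (l 0 * p 0 + l 1 * p 1 - l 2 * p 2 - l 3 * p 3) := by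
        intro p
        rw [← hevE, ← hevpE]
        conv_lhs => rw [hEκ]
        simp
      have k0 := key ![1, 0, 0, 0]
      have k1 := key ![0, 1, 0, 0]
      have k2 := key ![0, 0, 1, 0]
      have k3 := key ![0, 0, 0, 1]
      simp [Fin.sum_univ_four] at k0 k1 k2 k3
      by_cases hκ1 : κ = 1
      · left
        subst hκ1
        constructor <;> linarith
      · right
        have hκ2 : 1 - κ ≠ 0 := sub_ne_zero.2 (Ne.symm hκ1)
        constructor
        · have : (1 - κ) * l 0 = 0 := by linarith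
          exact (mul_eq_zero.1 this).resolve_left hκ2
        · have : (1 - κ) * l 1 = 0 := by linarith
          exact (mul_eq_zero.1 this).resolve_left hκ2
    · exfalso
      have t := totalDegree_le_of_dvd_of_isDomain h hpE
      rw [hF.totalDegree hFne, (phi_hom E 1 hE1).totalDegree hpE] at t
      omega
  have hz : ∀ p : Fin 4 → ℚ, ∑ i, l i * p i = 0 → eval p (D a b c d) = 0 := by
    intro p hp
    rw [hE₀, map_mul, hevE, hp, mul_zero]
  rcases hab with ⟨l2, l3⟩ | ⟨l0, l1⟩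
  · have q : ∀ y z : ℚ, eval ![l 1, - l 0, y, z] (D a b c d) = 0 := by
      intro y z
      apply hz
      simp [Fin.sum_univ_four, l2, l3]
      ring
    have q0 := q 0 0
    have q1 := q 1 0
    have q2 := q 0 1
    have q3 := q 1 1
    rw [eval_D] at q0 q1 q2 q3
    simp only [Matrix.cons_val_zero, Matrix.cons_val_one, Matrix.cons_val] at q0 q1 q2 q3
    have ea : a 0 * l 1 + a 1 * (- l 0) = 0 := by linear_combination q0 - q1
    have ec : c 0 * l 1 + c 1 * (- l 0) = 0 := by linear_combination q0 - q2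
    have eb : b 0 * l 1 + b 1 * (- l 0) = 0 := by
      linear_combination (1/2) * (q3 - q0) + (1/2) * ea + (1/2) * ec
    have e1 : l 1 = 0 := by
      linear_combination α * ea + β * eb + γ * ec - l 1 * h1 + l 0 * h2
    have e0 : l 0 = 0 := by
      linear_combination - (α' * ea + β' * eb + γ' * ec) + l 1 * h3 - l 0 * h4
    apply hEne
    rw [hl]
    simp [Fin.sum_univ_four, l2, l3, e0, e1]
  · have q : ∀ u v : ℚ, eval ![u, v, 0, 0] (D a b c d) = 0 := by
      intro u v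
      apply hz
      simp [Fin.sum_univ_four, l0, l1]
    have q0 := q 1 0
    have q1 := q 0 1
    have q2 := q 1 1
    have q3 := q 1 (-1)
    rw [eval_D] at q0 q1 q2 q3
    simp only [Matrix.cons_val_zero, Matrix.cons_val_one, Matrix.cons_val] at q0 q1 q2 q3
    have r0 : d 0 * (a 0 * c 0 - b 0 ^ 2) = 0 := by linear_combination q0
    have r3 : d 1 * (a 1 * c 1 - b 1 ^ 2) = 0 := by linear_combination q1
    have r2 : d 0 * (a 1 * c 1 - b 1 ^ 2) + d 1 * (a 0 * c 1 + a 1 * c 0 - 2 * b 0 * b 1) = 0 := by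
      linear_combination (1/2) * (q2 + q3) - q0
    have r1 : d 1 * (a 0 * c 0 - b 0 ^ 2) + d 0 * (a 0 * c 1 + a 1 * c 0 - 2 * b 0 * b 1) = 0 := by
      linear_combination (1/2) * (q2 - q3) - q1
    have hABC : a 0 * c 0 - b 0 ^ 2 = 0 ∧ a 0 * c 1 + a 1 * c 0 - 2 * b 0 * b 1 = 0 ∧
        a 1 * c 1 - b 1 ^ 2 = 0 := by
      by_cases hd0 : d 0 = 0
      · have hd1 : d 1 ≠ 0 := by
          intro h; apply hd; ext i; fin_cases i
          · exact hd0
          · exact h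
        have s3 := (mul_eq_zero.1 r3).resolve_left hd1
        rw [hd0, zero_mul, zero_add] at r2
        have s2 := (mul_eq_zero.1 r2).resolve_left hd1
        rw [hd0, zero_mul, add_zero] at r1
        have s1 := (mul_eq_zero.1 r1).resolve_left hd1
        exact ⟨s1, s2, s3⟩
      · have s1 := (mul_eq_zero.1 r0).resolve_left hd0
        rw [s1, mul_zero, zero_add] at r1
        have s2 := (mul_eq_zero.1 r1).resolve_left hd0
        rw [s2, mul_zero, add_zero] at r2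
        have s3 := (mul_eq_zero.1 r2).resolve_left hd0
        exact ⟨s1, s2, s3⟩
    obtain ⟨s1, s2, s3⟩ := hABC
    have m1 : a 0 * c 1 - a 1 * c 0 = 0 := by
      have : (a 0 * c 1 - a 1 * c 0) ^ 2 = 0 := by
        linear_combination (a 0 * c 1 + a 1 * c 0 + 2 * b 0 * b 1) * s2 - 4 * a 1 * c 1 * s1 -
          4 * b 0 ^ 2 * s3
      exact pow_eq_zero_iff (two_ne_zero) |>.1 this
    have m2 : a 0 * b 1 - a 1 * b 0 = 0 := by
      have : (a 0 * b 1 - a 1 * b 0) ^ 2 = 0 := by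
        linear_combination (a 0 * a 1) * s2 - a 1 ^ 2 * s1 - a 0 ^ 2 * s3
      exact pow_eq_zero_iff (two_ne_zero) |>.1 this
    have m3 : b 0 * c 1 - b 1 * c 0 = 0 := by
      have : (b 0 * c 1 - b 1 * c 0) ^ 2 = 0 := by
        linear_combination (c 0 * c 1) * s2 - c 1 ^ 2 * s1 - c 0 ^ 2 * s3
      exact pow_eq_zero_iff (two_ne_zero) |>.1 this
    have : (1 : ℚ) = 0 := by
      linear_combination (α * β' - β * α') * m2 + (α * γ' - γ * α') * m1 +
        (β * γ' - γ * β') * m3 - (α' * a 1 + β' * b 1 + γ' * c 1) * h1 - h4 +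
        (α' * a 0 + β' * b 0 + γ' * c 0) * h2
    norm_num at this

lemma aeval_L {Ω : Type} [Field Ω] [Algebra ℚ Ω] (x : Fin 4 → Ω) (a : Fin 2 → ℚ) :
    aeval x (L a) = a 0 • x 0 + a 1 • x 1 := by
  simp [L, Algebra.smul_def]

theorem ref : RefStmt := by
  intro Ω _ _ x hx m hsym hdet h00 h01 h11 h22 h12 h02 n00 n11 n22 hspan e he F hF mF hmF
  have hL : ∀ y ∈ Submodule.span ℚ {x 0, x 1}, ∃ a : Fin 2 → ℚ, aeval x (L a) = y := by
    intro y hy
    obtain ⟨s, t, hst⟩ := Submodule.mem_span_pair.1 hy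
    exact ⟨![s, t], by rw [aeval_L]; simpa using hst⟩
  have hinj : ∀ s t s' t' : ℚ, s • x 0 + t • x 1 = s' • x 0 + t' • x 1 → s = s' ∧ t = t' := by
    intro s t s' t' h
    have h' := (Fintype.linearIndependent_iff.1 hx) ![s - s', t - t', 0, 0] (by
      simp only [Fin.sum_univ_four, Matrix.cons_val_zero, Matrix.cons_val_one, Matrix.cons_val,
        sub_smul, zero_smul, add_zero]
      linear_combination (exp := 1) h)
    have e0 := h' 0
    have e1 := h' 1
    simp only [Matrix.cons_val_zero, Matrix.cons_val_one] at e0 e1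
    exact ⟨sub_eq_zero.1 e0, sub_eq_zero.1 e1⟩
  obtain ⟨a, ha⟩ := hL _ h00
  obtain ⟨b, hb⟩ := hL _ h01
  obtain ⟨c, hc⟩ := hL _ h11
  obtain ⟨d, hd⟩ := hL _ h22
  have han : a ≠ 0 := by
    rintro rfl
    apply n00; rw [← ha, aeval_L]; simp
  have hdn : d ≠ 0 := by
    rintro rfl
    apply n22; rw [← hd, aeval_L]; simp
  have hDx : aeval x (D a b c d) = 0 := by
    unfold D
    simp only [map_sub, map_add, map_mul, map_pow, aeval_X, ha, hb, hc, hd, map_ofNat]
    rw [← h12, ← h02]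
    rw [Matrix.det_fin_three] at hdet
    simp only [Matrix.of_apply] at hdet
    rw [hsym 1 0, hsym 2 0, hsym 2 1] at hdet
    linear_combination hdet
  have hdvd : F ∣ D a b c d := hF.2.2.2 3 _ (homD a b c d) hDx
  have hDne := D_ne a b c d han
  have hFne : F ≠ 0 := hF.2.1.ne_zero
  have he3 : e ≤ 3 := by
    have t := totalDegree_le_of_dvd_of_isDomain hdvd hDne
    rwa [hF.1.totalDegree hFne, (homD a b c d).totalDegree hDne] at t
  have hx0 : x 0 ∈ Submodule.span ℚ {m 0 0, m 0 1, m 1 1} := by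
    rw [hspan]; exact Submodule.subset_span (by simp)
  have hx1 : x 1 ∈ Submodule.span ℚ {m 0 0, m 0 1, m 1 1} := by
    rw [hspan]; exact Submodule.subset_span (by simp)
  rw [Submodule.mem_span_triple] at hx0 hx1
  obtain ⟨α, β, γ, hαβ⟩ := hx0
  obtain ⟨α', β', γ', hαβ'⟩ := hx1
  rw [← ha, ← hb, ← hc, aeval_L, aeval_L, aeval_L] at hαβ hαβ'
  have k1 := hinj (α * a 0 + β * b 0 + γ * c 0) (α * a 1 + β * b 1 + γ * c 1) 1 0 (by
    rw [one_smul, zero_smul, add_zero]
    simp only [Algebra.smul_def, map_add, map_mul] at hαβ ⊢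
    linear_combination hαβ)
  have k2 := hinj (α' * a 0 + β' * b 0 + γ' * c 0) (α' * a 1 + β' * b 1 + γ' * c 1) 0 1 (by
    rw [one_smul, zero_smul, zero_add]
    simp only [Algebra.smul_def, map_add, map_mul] at hαβ' ⊢
    linear_combination hαβ')
  have he' : e = 3 := by
    by_contra hne
    have he2 : e = 2 := by omega
    subst he2
    exact no_two a b c d han hdn α β γ α' β' γ' k1.1 k1.2 k2.1 k2.2 F hF.1 hF.2.1 hdvd
  subst he'
  refine ⟨rfl, ?_⟩
  obtain ⟨E₀, hE₀⟩ := hdvd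
  have hD := homD a b c d
  rw [hE₀] at hD
  obtain ⟨E, hE, hEE⟩ := comp F E₀ 3 3 hF.1 hD le_rfl
  rw [hEE] at hE₀
  obtain ⟨κ, hκ⟩ : ∃ κ, E = C κ := by
    have := (totalDegree_zero_iff_isHomogeneous (p := E)).2 (by simpa using hE)
    exact ⟨_, (totalDegree_eq_zero_iff_eq_C).1 this⟩
  rw [hκ, mul_comm] at hE₀
  have hκ0 : κ ≠ 0 := by
    rintro rfl
    apply hDne; rw [hE₀]; simp
  have hcoef : ∀ n, coeff n (D a b c d) = κ * coeff n F := by
    intro n; rw [hE₀, coeff_C_mul]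
  have hsupp : ∀ n, n ∈ F.support ↔ coeff n (D a b c d) ≠ 0 := by
    intro n
    rw [mem_support_iff, hcoef]
    simp [hκ0]
  have hmdeg : mF 0 + mF 1 + mF 2 + mF 3 = 3 := by
    have h4 : mF.degree = 3 := by
      by_contra hne
      exact (mem_support_iff.1 hmF.1) (hF.1.coeff_eq_zero hne)
    rw [Finsupp.degree_eq_sum, Fin.sum_univ_four] at h4
    exact h4
  have hm01 : ¬ (mF 0 = 0 ∧ mF 1 = 0) := by
    rintro ⟨h0, h1⟩
    exact (hsupp mF).1 hmF.1 (coeff_D_zero a b c d mF h0 h1)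
  obtain ⟨n, hn, hn0, hn1⟩ : ∃ n ∈ F.support, n 0 = 0 ∧ n 1 = 1 := by
    by_contra hcon
    push Not at hcon
    have ea : a 1 = 0 := by
      by_contra h
      exact hcon (ex 0 1 2 0) ((hsupp _).2 (by rw [coeff_0120]; simpa using h)) rfl rfl
    have ec : c 1 = 0 := by
      by_contra h
      exact hcon (ex 0 1 0 2) ((hsupp _).2 (by rw [coeff_0102]; simpa using h)) rfl rfl
    have eb : b 1 = 0 := by
      by_contra h
      exact hcon (ex 0 1 1 1) ((hsupp _).2 (by rw [coeff_0111]; simpa using h)) rfl rfl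
    have := k2.2
    rw [ea, eb, ec] at this
    norm_num at this
  have h012 : mF 0 = 0 ∧ mF 1 = 1 := by
    by_cases hne : n = mF
    · rw [← hne]; exact ⟨hn0, hn1⟩
    · obtain ⟨i, hi, hj⟩ := hmF.2 n hn hne
      have hval : ∀ j : Fin 4, j < i → mF j = n j := hj
      fin_cases i
      · simp at hi; omega
      · have e0 := hval 0 (by decide)
        simp at hi
        exfalso; apply hm01; omega
      · have e0 := hval 0 (by decide)
        have e1 := hval 1 (by decide)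
        omega
      · have e0 := hval 0 (by decide)
        have e1 := hval 1 (by decide)
        omega
  refine ⟨h012.1, h012.2, by omega⟩

end Pool.Agent.Y734.REF
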